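import Pool.Agent.H6.NB.Targets

set_option autoImplicit false

namespace Pool.Agent.H73.NB

open Finset Pool.Agent.H6.NB

theorem t_csh (h1 : T_WLK) (h2 : T_DIR) (_h3 : T_MUP) : T_CSH := by
  classical
  intro q
  obtain ⟨δ, hδ⟩ : ∃ δ, δ = dl q := ⟨_, rfl⟩
  obtain ⟨n, hn⟩ : ∃ n, n = Tn q := ⟨_, rfl⟩
  obtain ⟨l, hl⟩ : ∃ l : ℝ, l = 4 * (q + 3) := ⟨_, rfl⟩
  have hq0 : (0 : ℝ) ≤ q := Nat.cast_nonneg q
  have he : 0 < eps2 q := by unfold eps2; positivity
  have hTn : (0 : ℝ) < n := by rw [hn]; unfold Tn; positivity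
  have hδ2 : δ ^ 2 * n = eps2 q := by
    rw [hδ]
    unfold dl
    rw [← hn, Real.sq_sqrt (by positivity)]
    field_simp
  have hδ0 : 0 < δ := by
    rw [hδ]
    unfold dl
    rw [← hn]
    exact Real.sqrt_pos.2 (by positivity)
  have hl0 : 0 < l := by rw [hl]; positivity
  have hδb : δ * √(2 ^ q) ≤ 1 / 2 := by
    refine abs_le_of_sq_le_sq' ?_ (by norm_num) |>.2
    rw [mul_pow, Real.sq_sqrt (by positivity)]
    have h4 : (2 : ℝ) ^ q ≤ n := by
      rw [hn]
      unfold Tn
      push_cast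
      exact pow_le_pow_right₀ (by norm_num) (by omega)
    have h5 : δ ^ 2 * 2 ^ q ≤ eps2 q := by
      rw [← hδ2]
      exact mul_le_mul_of_nonneg_left h4 (sq_nonneg _)
    have h6 : eps2 q ≤ 1 / 24 := by
      unfold eps2
      rw [div_le_div_iff₀ (by positivity) (by norm_num)]
      linarith
    calc δ ^ 2 * 2 ^ q ≤ 1 / 24 := h5.trans h6
      _ ≤ (1 / 2) ^ 2 := by norm_num
  obtain ⟨-, hmono, hlin, hconst⟩ := h1 q δ hδ0.le hδb
  obtain ⟨-, -, -, -, hdir⟩ := h2 q
  obtain ⟨Φ, hΦ⟩ : ∃ Φ : (VV q → ℝ) → ℝ, Φ = fun W => ∑ v, Real.cosh (l * W v) := ⟨_, rfl⟩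
  obtain ⟨K, hK⟩ : ∃ K, K = Real.exp ((l * δ) ^ 2 / 2) := ⟨_, rfl⟩
  have hK1 : 1 ≤ K := by rw [hK]; exact Real.one_le_exp (by positivity)
  have hΦ0 : ∀ W, 0 ≤ Φ W := by
    intro W
    rw [hΦ]
    exact sum_nonneg fun v _ => (Real.cosh_pos _).le
  have hcard : (Fintype.card ((Fin q → Bool) → Bool) : ℝ) = 2 ^ 2 ^ q := by
    simp
  have hstep : ∀ W, AA q δ Φ W ≤ K * Φ W := by
    intro W
    unfold AA
    by_cases hW : ∀ v, |W v| ≤ 1 / 2
    · have h4 : ∀ r, stp q δ W r = fun v => W v + δ * dir q r v := by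
        intro r
        unfold stp
        rw [if_pos hW]
      simp only [h4, hΦ]
      rw [sum_comm, sum_div, mul_sum]
      refine sum_le_sum fun v _ => ?_
      have h5 := hdir v (W v / δ) (l * δ)
      have h6 : ∀ r, l * δ * (W v / δ + dir q r v) = l * (W v + δ * dir q r v) := by
        intro r
        field_simp
      have h7 : l * δ * (W v / δ) = l * W v := by
        field_simp
      simp only [h6, h7] at h5
      rw [hK]
      exact h5
    · have h4 : ∀ r, stp q δ W r = W := by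
        intro r
        unfold stp
        rw [if_neg hW]
      simp only [h4, sum_const, card_univ, nsmul_eq_mul, hcard]
      rw [mul_div_assoc, mul_div_cancel₀ _ (by positivity)]
      have := hΦ0 W
      nlinarith
  have hiter : ∀ (m : ℕ) (W : VV q → ℝ), (∀ v, |W v| ≤ 1) →
      (AA q δ)^[m] Φ W ≤ K ^ m * Φ W := by
    intro m
    induction m with
    | zero => intro W _; simp
    | succ m ih =>
      intro W hW
      rw [Function.iterate_succ_apply]
      have h4 := hmono m (AA q δ Φ) (fun W => K * Φ W) (fun W _ => hstep W) W hW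
      have h5 := hlin m Unit (fun _ => K) (fun _ => Φ) W
      simp only [univ_unique, sum_singleton] at h5
      rw [h5] at h4
      refine h4.trans ?_
      have h6 := mul_le_mul_of_nonneg_left (ih W hW) (le_trans zero_le_one hK1)
      calc K * (AA q δ)^[m] Φ W ≤ K * (K ^ m * Φ W) := h6
        _ = _ := by ring
  obtain ⟨ok, hok⟩ : ∃ ok : (VV q → ℝ) → ℝ,
    ok = fun W => if ∀ v, |W v| ≤ 1 / 2 then 1 else 0 := ⟨_, rfl⟩
  have hbad : ∀ W, 1 - ok W ≤ 2 * Real.exp (-(l / 2)) * Φ W := by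
    intro W
    rw [hok]
    by_cases hW : ∀ v, |W v| ≤ 1 / 2
    · simp only [if_pos hW, sub_self]
      exact mul_nonneg (by positivity) (hΦ0 W)
    · simp only [if_neg hW, sub_zero]
      push Not at hW
      obtain ⟨v, hv⟩ := hW
      have h4 : Real.cosh (l / 2) ≤ Φ W := by
        rw [hΦ]
        have h5 : Real.cosh (l * W v) ≤ ∑ v, Real.cosh (l * W v) :=
          single_le_sum (f := fun v => Real.cosh (l * W v))
            (fun v _ => (Real.cosh_pos _).le) (mem_univ v)
        refine le_trans ?_ h5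
        rw [Real.cosh_le_cosh, abs_mul, abs_of_pos hl0, abs_of_pos (by positivity)]
        nlinarith
      have h6 : Real.exp (l / 2) / 2 ≤ Real.cosh (l / 2) := by
        rw [Real.cosh_eq]
        have := Real.exp_pos (-(l / 2))
        linarith
      have h7 : 2 * Real.exp (-(l / 2)) * (Real.exp (l / 2) / 2) = 1 := by
        have : Real.exp (-(l / 2)) * Real.exp (l / 2) = 1 := by
          rw [← Real.exp_add]; simp
        linarith
      rw [← h7]
      exact mul_le_mul_of_nonneg_left (h6.trans h4) (by positivity)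
  have hW0 : ∀ v : VV q, |(fun _ => 0 : VV q → ℝ) v| ≤ 1 := by
    intro v; simp
  have hfin : (AA q δ)^[n] (fun W => 1 - ok W) (fun _ => 0) ≤ 1 / 2 := by
    have h4 := hmono n (fun W => 1 - ok W) (fun W => 2 * Real.exp (-(l / 2)) * Φ W)
      (fun W _ => hbad W) (fun _ => 0) hW0
    have h5 := hlin n Unit (fun _ => 2 * Real.exp (-(l / 2))) (fun _ => Φ) (fun _ => 0)
    simp only [univ_unique, sum_singleton] at h5
    rw [h5] at h4
    refine h4.trans ?_
    have h6 := hiter n (fun _ => 0) hW0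
    have h7 : Φ (fun _ => 0) = 2 * 2 ^ q := by
      rw [hΦ]
      simp only [mul_zero, Real.cosh_zero, sum_const, card_univ, nsmul_eq_mul, mul_one]
      simp [Fintype.card_prod]
    have h8 : K ^ n = Real.exp (q + 3) := by
      rw [hK, ← Real.exp_nat_mul]
      congr 1
      have h9 : (n : ℝ) * ((l * δ) ^ 2 / 2) = l ^ 2 * (δ ^ 2 * n) / 2 := by ring
      rw [h9, hδ2, hl]
      unfold eps2
      field_simp
      ring
    rw [h7, h8] at h6
    have h9 : 2 * Real.exp (-(l / 2)) * (AA q δ)^[n] Φ (fun _ => 0) ≤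
        2 * Real.exp (-(l / 2)) * (Real.exp (q + 3) * (2 * 2 ^ q)) :=
      mul_le_mul_of_nonneg_left h6 (by positivity)
    refine h9.trans ?_
    have h10 : Real.exp (-(l / 2)) * Real.exp (q + 3) = Real.exp (-(q + 3)) := by
      rw [← Real.exp_add, hl]
      congr 1
      ring
    have h11 : 2 * Real.exp (-(l / 2)) * (Real.exp (q + 3) * (2 * 2 ^ q)) =
        4 * 2 ^ q * Real.exp (-(q + 3)) := by
      rw [← h10]; ring
    rw [h11, Real.exp_neg]
    have h12 : (8 : ℝ) * 2 ^ q ≤ Real.exp (q + 3) := by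
      have h13 : (2 : ℝ) ≤ Real.exp 1 := by
        have := Real.add_one_le_exp (1 : ℝ)
        linarith
      calc (8 : ℝ) * 2 ^ q = 2 ^ (q + 3) := by rw [pow_add]; norm_num; ring
        _ ≤ (Real.exp 1) ^ (q + 3) := pow_le_pow_left₀ (by norm_num) h13 _
        _ = Real.exp (q + 3) := by
            rw [← Real.exp_nat_mul]
            push_cast
            rw [mul_one]
    rw [← div_eq_mul_inv, div_le_iff₀ (Real.exp_pos _)]
    linarith
  have hsplit : (AA q δ)^[n] (fun W => 1 - ok W) (fun _ => 0) =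
      1 - (AA q δ)^[n] ok (fun _ => 0) := by
    have h4 := hlin n Bool (fun i => if i then 1 else -1)
      (fun i => if i then (fun _ => 1) else ok) (fun _ => 0)
    simp only [Fintype.sum_bool, if_true, if_false, Bool.false_eq_true] at h4
    rw [hconst] at h4
    have h5 : (fun W => 1 * (fun _ : VV q → ℝ => (1 : ℝ)) W + -1 * ok W) =
        fun W => 1 - ok W := by
      funext W; ring
    rw [h5] at h4
    rw [h4]
    ring
  rw [hsplit] at hfin
  rw [ge_iff_le, ← hδ, ← hn, ← hok]
  linarith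

end Pool.Agent.H73.NB
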