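import Pool.Agent.H6.NB.Targets

set_option autoImplicit false

namespace Pool.Agent.H73.NB

open Finset Pool.Agent.H6.NB

theorem t_phl (h1 : T_PHE) (h2 : T_MUP) (h3 : T_PHB) : T_PHL := by
  intro q
  have hE := h1 q
  obtain ⟨hpos, hsum, -⟩ := h2 true q
  have he : 0 < eps2 q := by unfold eps2; positivity
  have h4 := sum_filter_add_sum_filter_not univ (fun p => eps2 q / 4 ≤ phi q p)
    (fun p => mu true q p * phi q p)
  have h5 : ∑ p ∈ univ.filter (fun p => eps2 q / 4 ≤ phi q p), mu true q p * phi q p ≤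
      ∑ p ∈ univ.filter (fun p => eps2 q / 4 ≤ phi q p), mu true q p := by
    refine sum_le_sum fun p _ => ?_
    have := (abs_le.1 (h3 q p)).2
    nlinarith [hpos p]
  have h6 : ∑ p ∈ univ.filter (fun p => ¬ eps2 q / 4 ≤ phi q p), mu true q p * phi q p ≤
      eps2 q / 4 := by
    calc ∑ p ∈ univ.filter (fun p => ¬ eps2 q / 4 ≤ phi q p), mu true q p * phi q p
        ≤ ∑ p ∈ univ.filter (fun p => ¬ eps2 q / 4 ≤ phi q p), mu true q p * (eps2 q / 4) := by
          refine sum_le_sum fun p hp => ?_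
          rw [mem_filter, not_le] at hp
          exact mul_le_mul_of_nonneg_left hp.2.le (hpos p)
      _ ≤ ∑ p, mu true q p * (eps2 q / 4) :=
          sum_le_univ_sum_of_nonneg fun p => mul_nonneg (hpos p) (by linarith)
      _ = eps2 q / 4 := by rw [← sum_mul, hsum, one_mul]
  linarith

end Pool.Agent.H73.NB
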